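import Pool.Agent.KS6_23.DN.GamA

set_option autoImplicit false

namespace Pool.Agent.KS6_23.DN.GamB

open Pool.Agent.KS6_23.DN.GamA Filter Topology

lemma vx_c {a b : ℕ} (h : a % 132 = b % 132) : vx a = vx b ∧ vy a = vy b := by
  have : a % 66 = b % 66 := by omega
  simp only [vx, vy, h, this, and_self]

lemma n_c {a b : ℕ} (h : a % 132 = b % 132) : n1 a = n1 b ∧ n2 a = n2 b ∧ DD a = DD b := by
  have h1 := vx_c h
  have h2 := vx_c (a := a + 1) (b := b + 1) (by omega)
  simp only [n1, n2, DD, h1.1, h1.2, h2.1, h2.2, and_self]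

lemma nu_c {a b c d : ℕ} (h : a % 132 = b % 132) (h' : c % 132 = d % 132) : nu a c = nu b d := by
  simp only [nu, (n_c h).1, (n_c h).2.1, (vx_c h').1, (vx_c h').2]

lemma geo' (i : ℕ) : 0 < DD i ∧ nu (i + 1) i < DD (i + 1) ∧ nu (i + 131) (i + 1) < DD (i + 131) ∧
    n1 (i + 66) = -n1 i ∧ n2 (i + 66) = -n2 i ∧ DD (i + 66) = DD i := by
  have h := geo (i % 132) (Nat.mod_lt _ (by norm_num))
  have a0 := n_c (a := i) (b := i % 132) (by omega)
  have a1 := n_c (a := i + 1) (b := i % 132 + 1) (by omega)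
  have a2 := n_c (a := i + 131) (b := i % 132 + 131) (by omega)
  have a3 := n_c (a := i + 66) (b := i % 132 + 66) (by omega)
  rw [nu_c (b := i % 132 + 1) (d := i % 132) (by omega) (by omega),
    nu_c (a := i + 131) (b := i % 132 + 131) (d := i % 132 + 1) (by omega) (by omega),
    a0.1, a0.2.1, a0.2.2, a1.2.2, a2.2.2, a3.1, a3.2.1, a3.2.2]
  exact h

lemma Dp (i : ℕ) : (0 : ℝ) < DD i := by exact_mod_cast (geo' i).1

noncomputable def q (k : ℕ) (x : ℝ × ℝ) : ℝ := ((n1 k : ℝ) * x.1 + (n2 k : ℝ) * x.2) / DD k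

noncomputable def w (k a : ℕ) : ℝ := (nu k a : ℝ) / DD k

lemma q_c {a b : ℕ} (h : a % 132 = b % 132) : q a = q b := by
  funext x; simp only [q, (n_c h).1, (n_c h).2.1, (n_c h).2.2]

lemma q_neg (i : ℕ) (x : ℝ × ℝ) : q (i + 66) x = -q i x := by
  obtain ⟨_, _, _, a, b, c⟩ := geo' i
  simp only [q, a, b, c]; push_cast; ring

lemma edge {i : ℕ} {x : ℝ × ℝ} (h1 : q i x = 1) (h : ∀ k, q k x ≤ 1) :
    ∃ α β : ℝ, 0 ≤ α ∧ 0 ≤ β ∧ α + β = 1 ∧ ∀ k, q k x = α * w k i + β * w k (i + 1) := by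
  have hD := Dp i
  have hD' : ((vx i : ℝ) * vy (i + 1) - vy i * vx (i + 1)) = DD i := by simp [DD]
  set α := (x.1 * vy (i + 1) - x.2 * vx (i + 1)) / DD i with hα
  set β := (vx i * x.2 - vy i * x.1) / DD i with hβ
  have e : ∀ k, q k x = α * w k i + β * w k (i + 1) := by
    intro k
    have := Dp k
    simp only [q, w, nu, hα, hβ]
    push_cast
    field_simp
    rw [← hD']; ring
  have s : α + β = 1 := by
    rw [← h1]; simp only [q, n1, n2, hα, hβ]; push_cast; ring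
  obtain ⟨_, g1, g2, _⟩ := geo' i
  have a1 : w (i + 1) i < 1 := by
    rw [w, div_lt_one (Dp _)]; exact_mod_cast g1
  have a2 : w (i + 131) (i + 1) < 1 := by
    rw [w, div_lt_one (Dp _)]; exact_mod_cast g2
  have b1 : w (i + 1) (i + 1) = 1 := by
    rw [w, div_eq_one_iff_eq (Dp _).ne']
    simp only [nu, n1, n2, DD]; push_cast; ring
  have b2 : w (i + 131) i = 1 := by
    rw [w, div_eq_one_iff_eq (Dp _).ne']
    have := vx_c (a := i + 131 + 1) (b := i) (by omega)
    simp only [nu, n1, n2, DD, this.1, this.2]; push_cast; ring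
  have c1 := h (i + 1)
  have c2 := h (i + 131)
  rw [e, b1] at c1
  rw [e, b2] at c2
  refine ⟨α, β, by nlinarith, by nlinarith, s, e⟩

lemma corner {α β α' β' f1 f2 g1 g2 t : ℝ} (h1 : 0 ≤ α) (h2 : 0 ≤ β) (h3 : α + β = 1)
    (h4 : 0 ≤ α') (h5 : 0 ≤ β') (h6 : α' + β' = 1) (a : t ≤ f1 + g1) (b : t ≤ f2 + g1)
    (c : t ≤ f1 + g2) (d : t ≤ f2 + g2) : t ≤ α * f1 + β * f2 + (α' * g1 + β' * g2) := by
  have e1 : β = 1 - α := by linarith
  have e2 : β' = 1 - α' := by linarith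
  subst e1 e2
  nlinarith [mul_nonneg (mul_nonneg h1 h4) (sub_nonneg.2 a),
    mul_nonneg (mul_nonneg h2 h4) (sub_nonneg.2 b), mul_nonneg (mul_nonneg h1 h5) (sub_nonneg.2 c),
    mul_nonneg (mul_nonneg h2 h5) (sub_nonneg.2 d)]

lemma sA {i j a b : ℕ} (h : cA i j a b = true) : -1315 / 10000 ≤ w j a + w i b := by
  have h' : ((-1315 * DD i * DD j : ℤ) : ℝ) ≤ (10000 * (nu j a * DD i + nu i b * DD j) : ℤ) := by
    exact_mod_cast of_decide_eq_true h
  have := Dp i
  have := Dp j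
  push_cast at h'
  rw [w, w, div_add_div _ _ (by positivity) (by positivity), div_le_div_iff₀ (by positivity)
    (by positivity)]
  linarith

lemma sB {l a b : ℕ} (h : cB l a b = true) : 1461 / 1000 < w l a + -w l b := by
  have h' : ((1461 * DD l : ℤ) : ℝ) < (1000 * (nu l a - nu l b) : ℤ) := by
    exact_mod_cast of_decide_eq_true h
  have := Dp l
  push_cast at h'
  rw [w, w, ← sub_eq_add_neg, ← sub_div, div_lt_div_iff₀ (by positivity) (by positivity)]
  linarith

lemma sC {i j l A B a b : ℕ} (h : cC i j l A B a b = true) :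
    -1315 / 10000 + ((A : ℝ) + B) / 16 * (1461 / 1000) ≤
      (w j a + A / 16 * w l a + B / 16 * w (l + 1) a) +
      (w i b - A / 16 * w l b - B / 16 * w (l + 1) b) := by
  have h' : (((-21040 + 14610 * ((A : ℤ) + B)) * DD i * DD j * DD l * DD (l + 1) : ℤ) : ℝ) ≤
      (10000 * (16 * (nu j a * DD i + nu i b * DD j) * DD l * DD (l + 1) +
      (A * (nu l a - nu l b) * DD (l + 1) + B * (nu (l + 1) a - nu (l + 1) b) * DD l) * DD i *
        DD j) : ℤ) := by
    exact_mod_cast of_decide_eq_true h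
  have := Dp i
  have := Dp j
  have := Dp l
  have := Dp (l + 1)
  push_cast at h'
  rw [← sub_nonneg] at h' ⊢
  have e : ∀ X Y : ℝ, 0 ≤ X → Y = X / (160000 * DD i * DD j * DD l * DD (l + 1)) → 0 ≤ Y :=
    fun X Y hX hY => by rw [hY]; positivity
  refine e _ _ h' ?_
  simp only [w]
  field_simp
  ring

lemma core {i d : ℕ} (hi : i < 132) (hd : d < 67) {x y : ℝ × ℝ} (hx : ∀ k, q k x ≤ 1)
    (hy : ∀ k, q k y ≤ 1) (hxy : ∀ k, q k x - q k y ≤ 1461 / 1000) (h1 : q i x = 1)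
    (h2 : q (i + d) y = 1) : -1315 / 10000 ≤ q (i + d) x + q i y := by
  have hc : chk i d = true := by
    have := r0
    simp only [rows, List.all_eq_true, List.mem_range, zero_add] at this
    exact this i hi d hd
  obtain ⟨α, β, a1, a2, a3, e⟩ := edge h1 hx
  obtain ⟨α', β', b1, b2, b3, e'⟩ := edge h2 hy
  unfold chk at hc
  split_ifs at hc <;> simp only [four, Bool.and_eq_true] at hc <;>
    obtain ⟨⟨⟨c1, c2⟩, c3⟩, c4⟩ := hc
  · rw [e, e']
    exact corner a1 a2 a3 b1 b2 b3 (sA c1) (sA c2) (sA c3) (sA c4)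
  · exfalso
    have := corner a1 a2 a3 b1 b2 b3 ((min_le_left _ _).trans (min_le_left _ _))
      ((min_le_left _ _).trans (min_le_right _ _)) ((min_le_right _ _).trans (min_le_left _ _))
      ((min_le_right _ _).trans (min_le_right _ _)) |>.trans_lt'
      (lt_min (lt_min (sB c1) (sB c2)) (lt_min (sB c3) (sB c4)))
    have h3 := hxy (i + d / 2 + 99)
    rw [e, e'] at h3
    linarith
  · have := corner a1 a2 a3 b1 b2 b3 (sC c1) (sC c2) (sC c3) (sC c4)
    set l := i + d / 2 + 96 + code i d % 8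
    set A : ℝ := ((code i d / 8 % 4096 : ℕ) : ℝ)
    set B : ℝ := ((code i d / 32768 : ℕ) : ℝ)
    have hA : 0 ≤ A := Nat.cast_nonneg _
    have hB : 0 ≤ B := Nat.cast_nonneg _
    have h3 := mul_le_mul_of_nonneg_left (hxy l) hA
    have h4 := mul_le_mul_of_nonneg_left (hxy (l + 1)) hB
    rw [e, e'] at h3 h4 ⊢
    linarith

lemma core2 {i j : ℕ} (hi : i < 132) (hj : j < 132) {x y : ℝ × ℝ} (hx : ∀ k, q k x ≤ 1)
    (hy : ∀ k, q k y ≤ 1) (hxy : ∀ k, q k x - q k y ≤ 1461 / 1000) (h1 : q i x = 1)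
    (h2 : q j y = 1) : -1315 / 10000 ≤ q j x + q i y := by
  by_cases h : (j + 132 - i) % 132 < 67
  · have e := q_c (a := j) (b := i + (j + 132 - i) % 132) (by omega)
    rw [e] at h2 ⊢
    exact core hi h hx hy hxy h1 h2
  · have e := q_c (a := i) (b := j + (i + 132 - j) % 132) (by omega)
    rw [e] at h1 ⊢
    rw [add_comm]
    refine core hj (by omega) hy hx (fun k => ?_) h2 h1
    have := hxy (k + 66)
    rw [q_neg, q_neg] at this
    linarith

noncomputable def L : ℝ × ℝ →ₗ[ℝ] (Fin 132 → ℝ) where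
  toFun x := fun k => q k x
  map_add' x y := by funext k; simp only [q, Prod.fst_add, Prod.snd_add, Pi.add_apply]; ring
  map_smul' c x := by
    funext k
    simp only [q, Prod.smul_fst, Prod.smul_snd, Pi.smul_apply, smul_eq_mul, RingHom.id_apply]
    ring

lemma det0 : n1 0 * n2 33 - n2 0 * n1 33 ≠ 0 := by decide +kernel

lemma L_inj : Function.Injective L := by
  rw [injective_iff_map_eq_zero]
  intro x hx
  have h0 : q 0 x = 0 := congrFun hx 0
  have h1 : q 33 x = 0 := congrFun hx 33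
  have d : ((n1 0 : ℝ) * n2 33 - n2 0 * n1 33) ≠ 0 := by exact_mod_cast det0
  rw [q, div_eq_zero_iff, or_iff_left (Dp _).ne'] at h0 h1
  refine Prod.ext (mul_left_cancel₀ d ?_) (mul_left_cancel₀ d ?_)
  · simp only [Prod.fst_zero]; linear_combination (n2 33 : ℝ) * h0 - (n2 0 : ℝ) * h1
  · simp only [Prod.snd_zero]; linear_combination (n1 0 : ℝ) * h1 - (n1 33 : ℝ) * h0

lemma le_norm (x : ℝ × ℝ) (k : ℕ) : q k x ≤ ‖L x‖ := by
  rw [q_c (b := k % 132) (by omega)]
  exact (le_abs_self _).trans (norm_le_pi_norm (L x) ⟨k % 132, Nat.mod_lt _ (by norm_num)⟩)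

lemma norm_lt (x : ℝ × ℝ) {c : ℝ} (h : ∀ k : Fin 132, q k x < c) : ‖L x‖ < c := by
  have h' : ∀ k : ℕ, q k x < c := fun k => by
    rw [q_c (b := k % 132) (by omega)]; exact h ⟨k % 132, Nat.mod_lt _ (by norm_num)⟩
  have a : ∀ k : ℕ, |q k x| < c := fun k => by
    have := h' (k + 66)
    rw [q_neg] at this
    exact abs_lt.2 ⟨by linarith, h' k⟩
  exact (pi_norm_lt_iff ((abs_nonneg _).trans_lt (a 0))).2 fun k => a k

lemma active (p : StrongDual ℝ (LinearMap.range L)) (hp : ‖p‖ = 1) (x y : ℝ × ℝ)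
    (hx : ‖L x‖ = 1) (hpx : p ⟨L x, x, rfl⟩ = 1) :
    ∃ i < 132, q i x = 1 ∧ q i y ≤ p ⟨L y, y, rfl⟩ := by
  by_contra hc
  push Not at hc
  set c := p ⟨L y, y, rfl⟩
  have : ∀ i : Fin 132, ∀ᶠ t in 𝓝[>] (0 : ℝ), q i x - t * q i y < 1 - t * c := by
    intro i
    rcases (hx ▸ le_norm x i).eq_or_lt with h | h
    · filter_upwards [self_mem_nhdsWithin] with t ht
      have := hc i i.2 h
      have ht' : 0 < t := ht
      nlinarith
    · apply Eventually.filter_mono nhdsWithin_le_nhds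
      exact ContinuousAt.eventually_lt (f := fun t : ℝ => q i x - t * q i y)
        (g := fun t => 1 - t * c) (by fun_prop) (by fun_prop) (by simpa using h)
  obtain ⟨t, ht⟩ := (eventually_all.2 this).exists
  have h1 : ‖L (x - t • y)‖ < 1 - t * c := norm_lt _ fun k => by
    have : q k (x - t • y) = q k x - t * q k y := by
      simp only [q, Prod.fst_sub, Prod.snd_sub, Prod.smul_fst, Prod.smul_snd, smul_eq_mul]; ring
    rw [this]; exact ht k
  have h2 := p.le_opNorm (⟨L x, x, rfl⟩ - t • ⟨L y, y, rfl⟩)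
  rw [map_sub, map_smul, hpx, hp, one_mul, smul_eq_mul] at h2
  rw [map_sub, map_smul] at h1
  exact absurd (((le_abs_self _).trans h2).trans_lt h1) (lt_irrefl _)

end Pool.Agent.KS6_23.DN.GamB
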