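import Pool.Agent.KS6_23.DN.Special
import Pool.Agent.KS6_23.DN.GamB

/-!
# A plane with `γ⁺(ε) < ε²`, and the values at `0` and `2`
-/

set_option autoImplicit false

open Set Metric

universe u

namespace Pool.Agent.KS6_23.DN

open GamB

lemma sphere_rank {X : Type u} [NormedAddCommGroup X] [NormedSpace ℝ X]
    (hX : 1 < Module.rank ℝ X) {ε : ℝ} (h0 : 0 ≤ ε) (h2 : ε ≤ 2) : (values X ε).Nonempty := by
  obtain ⟨x, hx⟩ := exists_unit hX
  obtain ⟨y, hy, hxy⟩ := exists_dist hX hx h0 h2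
  obtain ⟨p, hp⟩ := exists_J1 hx
  obtain ⟨q, hq⟩ := exists_J1 hy
  exact ⟨_, x, y, hx, hy, hxy, p, hp, q, hq, rfl⟩

lemma at_zero {X : Type u} [NormedAddCommGroup X] [NormedSpace ℝ X]
    (hX : 1 < Module.rank ℝ X) : gammaMinus X 0 ≤ 0 ∧ 0 ≤ gammaPlus X 0 := by
  obtain ⟨x, hx⟩ := exists_unit hX
  obtain ⟨p, hp⟩ := exists_J1 hx
  have h : (0 : ℝ) ∈ values X 0 := ⟨x, x, hx, hx, by simp, p, hp, p, hp, by simp⟩
  exact ⟨gammaMinus_le h, le_gammaPlus h⟩

lemma at_two {X : Type u} [NormedAddCommGroup X] [NormedSpace ℝ X]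
    (hX : 1 < Module.rank ℝ X) : gammaMinus X 2 ≤ 4 ∧ 4 ≤ gammaPlus X 2 := by
  obtain ⟨x, hx⟩ := exists_unit hX
  obtain ⟨p, hp⟩ := exists_J1 hx
  have hx' : ‖-x‖ = 1 := by rw [norm_neg]; exact hx
  have hd : ‖x - -x‖ = 2 := by
    rw [sub_neg_eq_add, ← two_smul ℝ x, norm_smul, hx]; norm_num
  have h : (4 : ℝ) ∈ values X 2 := by
    refine ⟨x, -x, hx, hx', hd, p, hp, -p, J1_neg hp, ?_⟩
    rw [val_eq hx hx' hp (J1_neg hp)]
    simp only [map_neg, neg_apply, J1_self hp hx]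
    norm_num
  exact ⟨gammaMinus_le h, le_gammaPlus h⟩

theorem counter : ∃ (X : Type) (_ : NormedAddCommGroup X) (_ : NormedSpace ℝ X),
    Module.finrank ℝ X = 2 ∧ ∃ ε ∈ Icc (0 : ℝ) 2, gammaPlus X ε < ε ^ 2 := by
  have hr : Module.finrank ℝ (LinearMap.range L) = 2 := by
    rw [LinearMap.finrank_range_of_inj L_inj]; simp
  have hb : ∀ g ∈ values (LinearMap.range L) (1461 / 1000), g ≤ 21315 / 10000 := by
    rintro _ ⟨⟨_, x, rfl⟩, ⟨_, y, rfl⟩, hx, hy, hxy, p, ⟨p1, p2⟩, r, ⟨r1, r2⟩, rfl⟩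
    rw [hx] at p2
    rw [hy] at r2
    have hx' : ‖L x‖ = 1 := hx
    have hy' : ‖L y‖ = 1 := hy
    have hxy' : ‖L (x - y)‖ = 1461 / 1000 := by rw [map_sub]; exact hxy
    obtain ⟨i, hi, a1, a2⟩ := active p p1 x y hx' p2
    obtain ⟨j, hj, b1, b2⟩ := active r r1 y x hy' r2
    have := core2 hi hj (fun k => hx' ▸ le_norm x k) (fun k => hy' ▸ le_norm y k) (fun k => by
      have := le_norm (x - y) k
      rw [hxy'] at this
      refine le_trans (le_of_eq ?_) this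
      simp only [q, Prod.fst_sub, Prod.snd_sub]; ring) a1 b1
    simp only [sub_apply, map_sub]
    linarith
  have hn : (values (LinearMap.range L) (1461 / 1000)).Nonempty :=
    sphere_rank (by rw [← Module.finrank_eq_rank, hr]; norm_num) (by norm_num) (by norm_num)
  exact ⟨LinearMap.range L, inferInstance, inferInstance, hr, 1461 / 1000,
    ⟨by norm_num, by norm_num⟩, (csSup_le hn hb).trans_lt (by norm_num)⟩

end Pool.Agent.KS6_23.DN
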