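import Mathlib

/-!
# The moduli `γ⁺_X` and `γ⁻_X` at the distances `1` and `√2`
-/

set_option autoImplicit false

open Set Metric

universe u

namespace Pool.Agent.KS6_23.DN

section defs
variable (X : Type u) [NormedAddCommGroup X] [NormedSpace ℝ X]

/-- The norming functionals `J₁(x) = {p : ‖p‖ = 1, p x = ‖x‖}`. -/
def J1 {X : Type u} [NormedAddCommGroup X] [NormedSpace ℝ X] (x : X) : Set (X →L[ℝ] ℝ) :=
  {p | ‖p‖ = 1 ∧ p x = ‖x‖}

/-- The set of the values `⟨p₁ - p₂, x₁ - x₂⟩` for unit vectors `x₁, x₂` with `‖x₁ - x₂‖ = ε` and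
`pᵢ ∈ J₁(xᵢ)`. -/
def values (ε : ℝ) : Set ℝ :=
  {r | ∃ x₁ x₂ : X, ‖x₁‖ = 1 ∧ ‖x₂‖ = 1 ∧ ‖x₁ - x₂‖ = ε ∧
    ∃ p₁ ∈ J1 x₁, ∃ p₂ ∈ J1 x₂, r = (p₁ - p₂) (x₁ - x₂)}

/-- `γ⁺_X(ε)`. -/
noncomputable def gammaPlus (ε : ℝ) : ℝ := sSup (values X ε)

/-- `γ⁻_X(ε)`. -/
noncomputable def gammaMinus (ε : ℝ) : ℝ := sInf (values X ε)

end defs

variable {X : Type u} [NormedAddCommGroup X] [NormedSpace ℝ X]

lemma exists_J1 {x : X} (hx : ‖x‖ = 1) : ∃ p, p ∈ J1 x := by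
  obtain ⟨p, hp, hp'⟩ := exists_dual_vector ℝ x (by
    intro h; rw [h] at hx; simp at hx)
  exact ⟨p, hp, by simpa using hp'⟩

lemma J1_neg {x : X} {p : X →L[ℝ] ℝ} (hp : p ∈ J1 x) : -p ∈ J1 (-x) :=
  ⟨by rw [norm_neg]; exact hp.1, by simp [hp.2]⟩

lemma J1_self {x : X} {p : X →L[ℝ] ℝ} (hp : p ∈ J1 x) (hx : ‖x‖ = 1) : p x = 1 := by
  rw [hp.2, hx]

lemma J1_le {x : X} {p : X →L[ℝ] ℝ} (hp : p ∈ J1 x) (y : X) : |p y| ≤ ‖y‖ := by
  have h := p.le_opNorm y
  rw [hp.1, one_mul, Real.norm_eq_abs] at h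
  exact h

lemma val_eq {x y : X} {p q : X →L[ℝ] ℝ} (hx : ‖x‖ = 1) (hy : ‖y‖ = 1) (hp : p ∈ J1 x)
    (hq : q ∈ J1 y) : (p - q) (x - y) = 2 - p y - q x := by
  have h1 := J1_self hp hx
  have h2 := J1_self hq hy
  simp only [sub_apply, map_sub, h1, h2]
  ring

lemma values_bdd {ε : ℝ} : ∀ r ∈ values X ε, 0 ≤ r ∧ r ≤ 4 := by
  rintro r ⟨x, y, hx, hy, -, p, hp, q, hq, rfl⟩
  rw [val_eq hx hy hp hq]
  have h1 := abs_le.1 (J1_le hp y)
  have h2 := abs_le.1 (J1_le hq x)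
  rw [hy] at h1
  rw [hx] at h2
  constructor <;> linarith [h1.1, h1.2, h2.1, h2.2]

lemma bddAbove (ε : ℝ) : BddAbove (values X ε) := ⟨4, fun r hr => (values_bdd r hr).2⟩

lemma bddBelow (ε : ℝ) : BddBelow (values X ε) := ⟨0, fun r hr => (values_bdd r hr).1⟩

lemma exists_unit (hX : 1 < Module.rank ℝ X) : ∃ x : X, ‖x‖ = 1 := by
  have hnt : Nontrivial X := by
    by_contra h
    rw [not_nontrivial_iff_subsingleton] at h
    have h1 : Module.rank ℝ X = 0 := rank_subsingleton' ℝ X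
    rw [h1] at hX
    exact absurd hX (by simp)
  exact exists_norm_eq X zero_le_one

/-- Unit vectors at every distance in `[0, 2]` from a given one. -/
lemma exists_dist (hX : 1 < Module.rank ℝ X) {x : X} (hx : ‖x‖ = 1) {ε : ℝ} (h0 : 0 ≤ ε)
    (h2 : ε ≤ 2) : ∃ y : X, ‖y‖ = 1 ∧ ‖x - y‖ = ε := by
  have hpre := isPreconnected_sphere hX (0 : X) 1
  have hc : ContinuousOn (fun z : X => ‖x - z‖) (sphere (0 : X) 1) := by fun_prop
  have hu : x ∈ sphere (0 : X) 1 := by simpa using hx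
  have hu' : -x ∈ sphere (0 : X) 1 := by simpa using hx
  have h3 := hpre.intermediate_value hu hu' hc
  have h4 : ε ∈ Icc (‖x - x‖) (‖x - -x‖) := by
    have h5 : ‖x - -x‖ = 2 := by
      rw [sub_neg_eq_add, ← two_smul ℝ x, norm_smul, hx]
      norm_num
    rw [h5, sub_self, norm_zero]
    exact ⟨h0, h2⟩
  obtain ⟨z, hz, hzε⟩ := h3 h4
  exact ⟨z, by simpa using hz, hzε⟩

/-- A unit vector isosceles orthogonal to a given one. -/
lemma exists_iso (hX : 1 < Module.rank ℝ X) {x : X} (hx : ‖x‖ = 1) :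
    ∃ y : X, ‖y‖ = 1 ∧ ‖x - y‖ = ‖x + y‖ := by
  have hpre := isPreconnected_sphere hX (0 : X) 1
  have hc : ContinuousOn (fun z : X => ‖x - z‖ - ‖x + z‖) (sphere (0 : X) 1) := by fun_prop
  have hu : x ∈ sphere (0 : X) 1 := by simpa using hx
  have hu' : -x ∈ sphere (0 : X) 1 := by simpa using hx
  have h3 := hpre.intermediate_value hu hu' hc
  have h2 : ‖x + x‖ = 2 := by
    rw [← two_smul ℝ x, norm_smul, hx]
    norm_num
  have h4 : (0 : ℝ) ∈ Icc (‖x - x‖ - ‖x + x‖) (‖x - -x‖ - ‖x + -x‖) := by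
    rw [sub_neg_eq_add, ← sub_eq_add_neg, sub_self, norm_zero, h2]
    constructor <;> norm_num
  obtain ⟨z, hz, hzε⟩ := h3 h4
  exact ⟨z, by simpa using hz, sub_eq_zero.1 hzε⟩

/-! ### Moving a unit vector away from `x` -/

/-- The first comparison: `p` decreases. -/
lemma move_p {x y y' : X} {p : X →L[ℝ] ℝ} {c s N : ℝ} (hx : ‖x‖ = 1) (hy : ‖y‖ = 1)
    (hy' : ‖y'‖ = 1) (hs : 0 ≤ s) (hc : 0 ≤ c) (hN : 0 < N) (h : N • y' = c • y - s • x)
    (hp : p ∈ J1 x) : p y' ≤ p y := by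
  have h1 : N * p y' = c * p y - s := by
    have := congrArg p h
    simp only [map_sub, map_smul, smul_eq_mul, J1_self hp hx, mul_one] at this
    exact this
  have hNn : ‖N • y'‖ = N := by rw [norm_smul, hy', mul_one, Real.norm_of_nonneg hN.le]
  have hcn : ‖c • y‖ = c := by rw [norm_smul, hy, mul_one, Real.norm_of_nonneg hc]
  have hsn : ‖s • x‖ = s := by rw [norm_smul, hx, mul_one, Real.norm_of_nonneg hs]
  have h2 : |c - N| ≤ s := by
    have h3 := abs_norm_sub_norm_le (c • y) (N • y')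
    have h4 : c • y - N • y' = s • x := by rw [h]; abel
    rw [h4, hNn, hcn, hsn] at h3
    exact h3
  have h5 := J1_le hp y
  rw [hy] at h5
  have h6 : (c - N) * p y ≤ s := by
    calc (c - N) * p y ≤ |(c - N) * p y| := le_abs_self _
      _ = |c - N| * |p y| := abs_mul _ _
      _ ≤ s * 1 := mul_le_mul h2 h5 (abs_nonneg _) hs
      _ = s := mul_one s
  have h7 : N * p y' ≤ N * p y := by linarith
  exact le_of_mul_le_mul_left h7 hN

/-- The second comparison: the norming functional decreases at `x`. -/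
lemma move_q {x y y' : X} {q q' : X →L[ℝ] ℝ} {c s N : ℝ} (hy : ‖y‖ = 1)
    (hy' : ‖y'‖ = 1) (hs : 0 < s) (hc : 0 ≤ c) (hN : 0 < N) (h : N • y' = c • y - s • x)
    (hq : q ∈ J1 y) (hq' : q' ∈ J1 y') : q' x ≤ q x := by
  have h1 : N = c * q' y - s * q' x := by
    have := congrArg q' h
    simp only [map_sub, map_smul, smul_eq_mul, J1_self hq' hy', mul_one] at this
    exact this
  have h2 : N * q y' = c - s * q x := by
    have := congrArg q h
    simp only [map_sub, map_smul, smul_eq_mul, J1_self hq hy, mul_one] at this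
    exact this
  have h3 := (abs_le.1 (J1_le hq y')).2
  have h4 := (abs_le.1 (J1_le hq' y)).2
  rw [hy'] at h3
  rw [hy] at h4
  have h5 : N * q y' ≤ N := by nlinarith
  have h6 : c * q' y ≤ c := by nlinarith
  have h7 : s * q' x ≤ s * q x := by linarith
  exact le_of_mul_le_mul_left h7 hs

/-- The sum becomes shorter. -/
lemma move_sum {x y y' : X} {c s N : ℝ} (hx : ‖x‖ = 1) (hy : ‖y‖ = 1) (hy' : ‖y'‖ = 1)
    (hs : 0 ≤ s) (hc : 0 ≤ c) (hN : 0 < N) (h : N • y' = c • y - s • x) :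
    ‖x + y'‖ ≤ ‖x + y‖ := by
  have hNn : ‖N • y'‖ = N := by rw [norm_smul, hy', mul_one, Real.norm_of_nonneg hN.le]
  have hcn : ‖c • y‖ = c := by rw [norm_smul, hy, mul_one, Real.norm_of_nonneg hc]
  have hsn : ‖s • x‖ = s := by rw [norm_smul, hx, mul_one, Real.norm_of_nonneg hs]
  have hcs : N ≤ c + s := by
    have := norm_sub_le (c • y) (s • x)
    rw [← h, hNn, hcn, hsn] at this
    exact this
  have hpos : 0 < c + s := lt_of_lt_of_le hN hcs
  have hkey : c + s ≤ N + s * ‖x + y‖ := by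
    have h1 : (c + s) • y = N • y' + s • (x + y) := by
      rw [h]; module
    have h2 := norm_add_le (N • y') (s • (x + y))
    rw [← h1, norm_smul, hy, mul_one, hNn, norm_smul, Real.norm_of_nonneg hpos.le,
      Real.norm_of_nonneg hs] at h2
    exact h2
  have hmain : (c + s) * (N * ‖x + y'‖) ≤ c * N * ‖x + y‖ + (c + s - N) * N := by
    have h1 : (c + s) • (N • (x + y')) = (c * N) • (x + y) + (c + s - N) • (N • y') := by
      have h2 : N • (x + y') = N • x + N • y' := smul_add _ _ _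
      rw [h2, h]; module
    have h3 : ‖(c + s) • (N • (x + y'))‖ = (c + s) * (N * ‖x + y'‖) := by
      rw [norm_smul, norm_smul, Real.norm_of_nonneg hpos.le, Real.norm_of_nonneg hN.le]
    have h4 := norm_add_le ((c * N) • (x + y)) ((c + s - N) • (N • y'))
    rw [← h1, h3, norm_smul, norm_smul (c + s - N), hNn,
      Real.norm_of_nonneg (mul_nonneg hc hN.le), Real.norm_of_nonneg (by linarith)] at h4
    exact h4
  have h5 : (c + s) * (N * ‖x + y'‖) ≤ (c + s) * (N * ‖x + y‖) := by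
    have h6 : (c + s - N) * N ≤ s * ‖x + y‖ * N := mul_le_mul_of_nonneg_right (by linarith) hN.le
    nlinarith
  have h7 := le_of_mul_le_mul_left h5 hpos
  exact le_of_mul_le_mul_left h7 hN

/-- From a pair at distance at most `ε` to a pair at distance `ε` with a value not smaller. -/
lemma move_up {x y : X} {p q : X →L[ℝ] ℝ} (hx : ‖x‖ = 1) (hy : ‖y‖ = 1) (hxy : y ≠ x)
    (hp : p ∈ J1 x) (hq : q ∈ J1 y) {ε : ℝ} (h1 : ‖x - y‖ ≤ ε) (h2 : ε ≤ 2) :
    ∃ r ∈ values X ε, (p - q) (x - y) ≤ r := by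
  -- the path
  set z : ℝ → X := fun θ => (1 - θ) • y - θ • x with hz
  have hz0 : ∀ θ ∈ Icc (0 : ℝ) 1, z θ ≠ 0 := by
    intro θ hθ h
    have h3 : (1 - θ) • y = θ • x := sub_eq_zero.1 h
    have h4 := congrArg norm h3
    rw [norm_smul, norm_smul, hx, hy, mul_one, mul_one, Real.norm_of_nonneg (by linarith [hθ.2]),
      Real.norm_of_nonneg hθ.1] at h4
    have h5 : θ = 1 / 2 := by linarith
    rw [h5] at h3
    have h6 : (1 - 1 / 2 : ℝ) = 1 / 2 := by norm_num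
    rw [h6] at h3
    exact hxy (smul_right_injective X (by norm_num : (1 / 2 : ℝ) ≠ 0) h3)
  have hcz : Continuous z := by fun_prop
  have hcont : ContinuousOn (fun θ => ‖x - (‖z θ‖)⁻¹ • z θ‖) (Icc 0 1) := by
    refine ContinuousOn.norm (continuousOn_const.sub ?_)
    exact (ContinuousOn.inv₀ hcz.norm.continuousOn
      (fun θ hθ => norm_ne_zero_iff.2 (hz0 θ hθ))).smul hcz.continuousOn
  have hivt := intermediate_value_Icc (zero_le_one (α := ℝ)) hcont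
  have hv0 : ‖x - (‖z 0‖)⁻¹ • z 0‖ = ‖x - y‖ := by simp [hz, hy]
  have hv1 : ‖x - (‖z 1‖)⁻¹ • z 1‖ = 2 := by
    simp only [hz, sub_self, zero_smul, one_smul, zero_sub, norm_neg, hx, inv_one, sub_neg_eq_add]
    rw [← two_smul ℝ x, norm_smul, hx]
    norm_num
  obtain ⟨θ, hθ, hθε⟩ := hivt (show ε ∈ Icc _ _ by rw [hv0, hv1]; exact ⟨h1, h2⟩)
  have hzp : 0 < ‖z θ‖ := norm_pos_iff.2 (hz0 θ hθ)
  set y' : X := (‖z θ‖)⁻¹ • z θ with hy'
  have hy'1 : ‖y'‖ = 1 := by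
    rw [hy', norm_smul, norm_inv, norm_norm, inv_mul_cancel₀ hzp.ne']
  have heq : ‖z θ‖ • y' = (1 - θ) • y - θ • x := by
    rw [hy', smul_smul, mul_inv_cancel₀ hzp.ne', one_smul]
  rcases eq_or_lt_of_le hθ.1 with h0 | h0
  · -- no move
    have hyy : y' = y := by
      rw [hy', ← h0]
      simp [hz, hy]
    refine ⟨_, ⟨x, y, hx, hy, ?_, p, hp, q, hq, rfl⟩, le_rfl⟩
    rw [← hθε, ← hyy]
  · obtain ⟨q', hq'⟩ := exists_J1 hy'1
    refine ⟨_, ⟨x, y', hx, hy'1, hθε, p, hp, q', hq', rfl⟩, ?_⟩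
    rw [val_eq hx hy hp hq, val_eq hx hy'1 hp hq']
    have h3 := move_p hx hy hy'1 hθ.1 (by linarith [hθ.2]) hzp heq hp
    have h4 := move_q hy hy'1 h0 (by linarith [hθ.2]) hzp heq hq hq'
    linarith

/-- From a pair at distance at least `ε` to a pair at distance `ε` with a value not larger. -/
lemma move_down {x y : X} {p q : X →L[ℝ] ℝ} (hx : ‖x‖ = 1) (hy : ‖y‖ = 1) (hxy : y ≠ -x)
    (hp : p ∈ J1 x) (hq : q ∈ J1 y) {ε : ℝ} (h1 : ε ≤ ‖x - y‖) (h2 : 0 < ε) :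
    ∃ r ∈ values X ε, r ≤ (p - q) (x - y) := by
  set z : ℝ → X := fun θ => (1 - θ) • y + θ • x with hz
  have hz0 : ∀ θ ∈ Icc (0 : ℝ) 1, z θ ≠ 0 := by
    intro θ hθ h
    have h3 : (1 - θ) • y = θ • (-x) := by
      rw [smul_neg]; exact eq_neg_of_add_eq_zero_left h
    have h4 := congrArg norm h3
    rw [norm_smul, norm_smul, norm_neg, hx, hy, mul_one, mul_one,
      Real.norm_of_nonneg (by linarith [hθ.2]), Real.norm_of_nonneg hθ.1] at h4
    have h5 : θ = 1 / 2 := by linarith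
    rw [h5] at h3
    have h6 : (1 - 1 / 2 : ℝ) = 1 / 2 := by norm_num
    rw [h6] at h3
    exact hxy (smul_right_injective X (by norm_num : (1 / 2 : ℝ) ≠ 0) h3)
  have hcz : Continuous z := by fun_prop
  have hcont : ContinuousOn (fun θ => ‖x - (‖z θ‖)⁻¹ • z θ‖) (Icc 0 1) := by
    refine ContinuousOn.norm (continuousOn_const.sub ?_)
    exact (ContinuousOn.inv₀ hcz.norm.continuousOn
      (fun θ hθ => norm_ne_zero_iff.2 (hz0 θ hθ))).smul hcz.continuousOn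
  have hivt := intermediate_value_Icc' (zero_le_one (α := ℝ)) hcont
  have hv0 : ‖x - (‖z 0‖)⁻¹ • z 0‖ = ‖x - y‖ := by simp [hz, hy]
  have hv1 : ‖x - (‖z 1‖)⁻¹ • z 1‖ = 0 := by simp [hz, hx]
  obtain ⟨θ, hθ, hθε⟩ := hivt (show ε ∈ Icc _ _ by rw [hv0, hv1]; exact ⟨h2.le, h1⟩)
  have hzp : 0 < ‖z θ‖ := norm_pos_iff.2 (hz0 θ hθ)
  have hθ1 : θ < 1 := by
    refine lt_of_le_of_ne hθ.2 ?_
    rintro rfl
    simp only at hθε
    rw [hv1] at hθε
    exact h2.ne hθε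
  set y' : X := (‖z θ‖)⁻¹ • z θ with hy'
  have hy'1 : ‖y'‖ = 1 := by
    rw [hy', norm_smul, norm_inv, norm_norm, inv_mul_cancel₀ hzp.ne']
  have heq : (1 - θ) • y = ‖z θ‖ • y' - θ • x := by
    rw [hy', smul_smul, mul_inv_cancel₀ hzp.ne', one_smul, hz]
    simp
  rcases eq_or_lt_of_le hθ.1 with h0 | h0
  · have hyy : y' = y := by
      rw [hy', ← h0]
      simp [hz, hy]
    refine ⟨_, ⟨x, y, hx, hy, ?_, p, hp, q, hq, rfl⟩, le_rfl⟩
    rw [← hθε, ← hyy]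
  · obtain ⟨q', hq'⟩ := exists_J1 hy'1
    refine ⟨_, ⟨x, y', hx, hy'1, hθε, p, hp, q', hq', rfl⟩, ?_⟩
    rw [val_eq hx hy hp hq, val_eq hx hy'1 hp hq']
    have h3 := move_p hx hy'1 hy hθ.1 hzp.le (by linarith) heq hp
    have h4 := move_q hy'1 hy h0 hzp.le (by linarith) heq hq' hq
    linarith

end Pool.Agent.KS6_23.DN
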