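import Pool.Agent.KS6_23.DN.Moduli

/-!
# The two-sided bound at `ε = 0, 1, √2, 2`, in every normed space of dimension at least two
-/

set_option autoImplicit false

open Set Metric

universe u

namespace Pool.Agent.KS6_23.DN

variable {X : Type u} [NormedAddCommGroup X] [NormedSpace ℝ X]

lemma le_gammaPlus {ε r : ℝ} (h : r ∈ values X ε) : r ≤ gammaPlus X ε := le_csSup (bddAbove ε) h

lemma gammaMinus_le {ε r : ℝ} (h : r ∈ values X ε) : gammaMinus X ε ≤ r := csInf_le (bddBelow ε) h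

/-- Three unit vectors `x₁, x₂, x₃ = x₂ - x₁`: the three values at distance `1` have sum `3`. -/
theorem at_one (hX : 1 < Module.rank ℝ X) : gammaMinus X 1 ≤ 1 ∧ 1 ≤ gammaPlus X 1 := by
  obtain ⟨x, hx⟩ := exists_unit hX
  obtain ⟨y, hy, hxy⟩ := exists_dist hX hx (ε := 1) (by norm_num) (by norm_num)
  obtain ⟨p, hp⟩ := exists_J1 hx
  obtain ⟨q, hq⟩ := exists_J1 hy
  have hz : ‖y - x‖ = 1 := by rw [norm_sub_rev]; exact hxy
  obtain ⟨r, hr⟩ := exists_J1 hz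
  have hx' : ‖-x‖ = 1 := by rw [norm_neg]; exact hx
  have v1 : (p - q) (x - y) ∈ values X 1 := ⟨x, y, hx, hy, hxy, p, hp, q, hq, rfl⟩
  have v2 : (q - r) (y - (y - x)) ∈ values X 1 :=
    ⟨y, y - x, hy, hz, by rw [sub_sub_cancel]; exact hx, q, hq, r, hr, rfl⟩
  have v3 : (r - -p) ((y - x) - -x) ∈ values X 1 :=
    ⟨y - x, -x, hz, hx', by rw [sub_neg_eq_add, sub_add_cancel]; exact hy, r, hr, -p,
      J1_neg hp, rfl⟩
  have hsum : (p - q) (x - y) + (q - r) (y - (y - x)) + (r - -p) ((y - x) - -x) = 3 := by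
    rw [val_eq hx hy hp hq, val_eq hy hz hq hr, val_eq hz hx' hr (J1_neg hp)]
    have h1 := J1_self hp hx
    have h2 := J1_self hq hy
    have h3 := J1_self hr hz
    simp only [map_sub, map_neg, neg_apply] at h3 ⊢
    linarith
  have a1 := le_gammaPlus v1
  have a2 := le_gammaPlus v2
  have a3 := le_gammaPlus v3
  have b1 := gammaMinus_le v1
  have b2 := gammaMinus_le v2
  have b3 := gammaMinus_le v3
  constructor <;> linarith

/-- Isosceles orthogonal unit vectors with `‖x - y‖ = ‖x + y‖` on either side of `√2`. -/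
lemma iso_pairs (hX : 1 < Module.rank ℝ X) :
    (∃ x y : X, ‖x‖ = 1 ∧ ‖y‖ = 1 ∧ ‖x - y‖ = ‖x + y‖ ∧ ‖x - y‖ ≤ √2) ∧
    (∃ x y : X, ‖x‖ = 1 ∧ ‖y‖ = 1 ∧ ‖x - y‖ = ‖x + y‖ ∧ √2 ≤ ‖x - y‖) := by
  obtain ⟨x, hx⟩ := exists_unit hX
  obtain ⟨y, hy, hxy⟩ := exists_iso hX hx
  set g := ‖x - y‖ with hg
  have hg0 : 0 < g := by
    have h1 : ‖(x - y) + (x + y)‖ ≤ ‖x - y‖ + ‖x + y‖ := norm_add_le _ _
    have h2 : (x - y) + (x + y) = (2 : ℝ) • x := by module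
    rw [h2, norm_smul, hx, ← hxy, ← hg] at h1
    norm_num at h1
    linarith
  have h2 : (√2 : ℝ) * √2 = 2 := Real.mul_self_sqrt (by norm_num)
  have hs : (0 : ℝ) < √2 := Real.sqrt_pos.2 (by norm_num)
  -- the second pair
  have hx' : ‖g⁻¹ • (x + y)‖ = 1 := by
    rw [norm_smul, ← hxy, norm_inv, Real.norm_of_nonneg hg0.le, inv_mul_cancel₀ hg0.ne']
  have hy' : ‖g⁻¹ • (x - y)‖ = 1 := by
    rw [norm_smul, ← hg, norm_inv, Real.norm_of_nonneg hg0.le, inv_mul_cancel₀ hg0.ne']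
  have hd1 : ‖g⁻¹ • (x + y) - g⁻¹ • (x - y)‖ = 2 / g := by
    have h3 : g⁻¹ • (x + y) - g⁻¹ • (x - y) = (2 * g⁻¹) • y := by module
    rw [h3, norm_smul, hy, mul_one, Real.norm_of_nonneg (by positivity)]
    rfl
  have hd2 : ‖g⁻¹ • (x + y) + g⁻¹ • (x - y)‖ = 2 / g := by
    have h3 : g⁻¹ • (x + y) + g⁻¹ • (x - y) = (2 * g⁻¹) • x := by module
    rw [h3, norm_smul, hx, mul_one, Real.norm_of_nonneg (by positivity)]
    rfl
  rcases le_total g (√2) with h | h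
  · refine ⟨⟨x, y, hx, hy, hxy, h⟩, ⟨_, _, hx', hy', by rw [hd1, hd2], ?_⟩⟩
    rw [hd1, le_div_iff₀ hg0]
    nlinarith
  · refine ⟨⟨_, _, hx', hy', by rw [hd1, hd2], ?_⟩, ⟨x, y, hx, hy, hxy, h⟩⟩
    rw [hd1, div_le_iff₀ hg0]
    nlinarith

/-- The two-sided bound at `√2`. -/
theorem at_sqrt_two (hX : 1 < Module.rank ℝ X) :
    gammaMinus X (√2) ≤ 2 ∧ 2 ≤ gammaPlus X (√2) := by
  have h2 : (√2 : ℝ) * √2 = 2 := Real.mul_self_sqrt (by norm_num)
  have hs : (0 : ℝ) < √2 := Real.sqrt_pos.2 (by norm_num)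
  have hs2 : (√2 : ℝ) ≤ 2 := by nlinarith
  obtain ⟨⟨x, y, hx, hy, hxy, hg⟩, ⟨u, v, hu, hv, huv, hg'⟩⟩ := iso_pairs hX
  have hne : ∀ x y : X, ‖x‖ = 1 → ‖x - y‖ = ‖x + y‖ → y ≠ x ∧ y ≠ -x := by
    intro x y hx h
    have h3 : ‖x + x‖ = 2 := by rw [← two_smul ℝ x, norm_smul, hx]; norm_num
    constructor
    · rintro rfl
      rw [sub_self, norm_zero, h3] at h
      norm_num at h
    · rintro rfl
      rw [sub_neg_eq_add, h3, ← sub_eq_add_neg, sub_self, norm_zero] at h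
      norm_num at h
  constructor
  · obtain ⟨p, hp⟩ := exists_J1 hu
    obtain ⟨q, hq⟩ := exists_J1 hv
    have hv' : ‖-v‖ = 1 := by rw [norm_neg]; exact hv
    obtain ⟨n1, n2⟩ := hne u v hu huv
    obtain ⟨r1, hr1, hr1'⟩ := move_down hu hv n2 hp hq hg' hs
    obtain ⟨r2, hr2, hr2'⟩ := move_down hu hv' (by rwa [Ne, neg_inj]) hp (J1_neg hq)
      (by rw [sub_neg_eq_add, ← huv]; exact hg') hs
    rw [val_eq hu hv hp hq] at hr1'
    rw [val_eq hu hv' hp (J1_neg hq)] at hr2'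
    simp only [map_neg, neg_apply] at hr2'
    have := gammaMinus_le hr1
    have := gammaMinus_le hr2
    linarith
  · obtain ⟨p, hp⟩ := exists_J1 hx
    obtain ⟨q, hq⟩ := exists_J1 hy
    have hy' : ‖-y‖ = 1 := by rw [norm_neg]; exact hy
    obtain ⟨n1, n2⟩ := hne x y hx hxy
    obtain ⟨r1, hr1, hr1'⟩ := move_up hx hy n1 hp hq hg hs2
    obtain ⟨r2, hr2, hr2'⟩ := move_up hx hy' (by intro h; exact n2 (by rw [← h, neg_neg])) hp
      (J1_neg hq) (by rw [sub_neg_eq_add, ← hxy]; exact hg) hs2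
    rw [val_eq hx hy hp hq] at hr1'
    rw [val_eq hx hy' hp (J1_neg hq)] at hr2'
    simp only [map_neg, neg_apply] at hr2'
    have := le_gammaPlus hr1
    have := le_gammaPlus hr2
    linarith

end Pool.Agent.KS6_23.DN
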